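import Pool.Agent.J6H55.FM.Stm3
import Pool.Agent.Q103.RP.Alg
import Pool.Agent.Q103.RP.Spc
import Pool.Agent.W602.GT.Gm

/-!
# The number of the curves in the fibres of a family of curves (module FM-CNT of project FM)
-/

set_option autoImplicit false
set_option linter.overlappingInstances false

namespace Pool.Agent.J6H11.FM

open FF Polynomial IntermediateField
open Pool.Agent.W602.GT (IsForm val coords)
open Pool.Agent.Q103.RP (IsPt evc evc_coeff evc_hom evc_eval alg_poly alg_spec' spec)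
open Pool.Agent.Q103.SF (van)
open Pool.Agent.J6H55.FM

section tot

variable {β : Type} {M : ℕ}

/-- the polynomials `z j₀`, `b i * z j₀`, `z j` -/
noncomputable def tot {n : ℕ} (e : Fin n ≃ β ⊕ Fin (M + 1)) (j₀ : Fin (M + 1)) :
    Fin (n + 1) → MvPolynomial (β ⊕ Fin (M + 1)) ℂ :=
  Fin.cons (MvPolynomial.X (Sum.inr j₀)) fun s =>
    Sum.elim (fun i => MvPolynomial.X (Sum.inl i) * MvPolynomial.X (Sum.inr j₀))
      (fun j => MvPolynomial.X (Sum.inr j)) (e s)

variable {n : ℕ} {e : Fin n ≃ β ⊕ Fin (M + 1)} {j₀ : Fin (M + 1)}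

theorem tot_hom (s : Fin (n + 1)) : MvPolynomial.IsWeightedHomogeneous
    (Sum.elim (fun _ => 0) (fun _ => 1) : β ⊕ Fin (M + 1) → ℕ) (tot e j₀ s) 1 := by
  unfold tot
  refine Fin.cases ?_ (fun s => ?_) s
  · rw [Fin.cons_zero]
    exact MvPolynomial.isWeightedHomogeneous_X ℂ _ (Sum.inr j₀)
  · rw [Fin.cons_succ]
    rcases e s with i | j
    · have h1 := (MvPolynomial.isWeightedHomogeneous_X ℂ
        (Sum.elim (fun _ => 0) (fun _ => 1) : β ⊕ Fin (M + 1) → ℕ) (Sum.inl i)).mul
        (MvPolynomial.isWeightedHomogeneous_X ℂ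
        (Sum.elim (fun _ => 0) (fun _ => 1) : β ⊕ Fin (M + 1) → ℕ) (Sum.inr j₀))
      simpa using h1
    · exact MvPolynomial.isWeightedHomogeneous_X ℂ _ (Sum.inr j)

theorem bind_wh {σ τ : Type} {w : τ → ℕ} {g : σ → MvPolynomial τ ℂ}
    (hg : ∀ i, MvPolynomial.IsWeightedHomogeneous w (g i) 1) {H : MvPolynomial σ ℂ} {m : ℕ}
    (hH : H.IsHomogeneous m) : MvPolynomial.IsWeightedHomogeneous w (MvPolynomial.bind₁ g H) m := by
  classical
  rw [H.as_sum, map_sum]
  refine Submodule.sum_mem (MvPolynomial.weightedHomogeneousSubmodule ℂ w m) fun d hd => ?_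
  rw [MvPolynomial.mem_weightedHomogeneousSubmodule, MvPolynomial.bind₁_monomial]
  have h1 : d.degree = m := by
    have h2 := hH (MvPolynomial.mem_support_iff.1 hd)
    rw [← h2, Finsupp.weight_apply]
    first
      | (simp [Finsupp.degree, Finsupp.sum]; done)
      | (simp [Finsupp.degree, Finsupp.sum]; rfl)
  have h3 : MvPolynomial.IsWeightedHomogeneous w (∏ i ∈ d.support, g i ^ d i)
      (∑ i ∈ d.support, d i • 1) :=
    MvPolynomial.IsWeightedHomogeneous.prod _ _ _ fun i _ => (hg i).pow (d i)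
  have h4 : (∑ i ∈ d.support, d i • 1) = m := by
    rw [← h1]
    first
      | (simp [Finsupp.degree]; done)
      | (simp [Finsupp.degree]; rfl)
  rw [h4] at h3
  have h5 := (MvPolynomial.isWeightedHomogeneous_C w (MvPolynomial.coeff d H)).mul h3
  rwa [zero_add] at h5

theorem tot_rel {H : MvPolynomial (Fin (n + 1)) ℂ} (hH : IsForm H) :
    IsRel (MvPolynomial.bind₁ (tot e j₀) H) := by
  obtain ⟨m, hm⟩ := hH
  exact ⟨m, bind_wh tot_hom hm⟩

/-- the homogeneous coordinates of the total space -/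
noncomputable def xt {E : Type} [Field E] [Algebra ℂ E] (e : Fin n ≃ β ⊕ Fin (M + 1))
    (j₀ : Fin (M + 1)) (b : β → E) (z : Fin (M + 1) → E) : Fin (n + 1) → E :=
  fun s => rv b z (tot e j₀ s)

variable {E : Type} [Field E] [Algebra ℂ E] {b : β → E} {z : Fin (M + 1) → E}

theorem rv_bind (H : MvPolynomial (Fin (n + 1)) ℂ) :
    rv b z (MvPolynomial.bind₁ (tot e j₀) H) = val (xt e j₀ b z) H := by
  unfold rv Pool.Agent.W602.GT.val xt
  rw [MvPolynomial.aeval_bind₁]
  rfl

theorem xt_zero : xt e j₀ b z 0 = z j₀ := by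
  unfold xt rv tot
  rw [Fin.cons_zero, MvPolynomial.aeval_X]
  rfl

theorem xt_inl (i : β) : xt e j₀ b z (e.symm (Sum.inl i)).succ = b i * z j₀ := by
  unfold xt rv tot
  rw [Fin.cons_succ, Equiv.apply_symm_apply, Sum.elim_inl, map_mul, MvPolynomial.aeval_X,
    MvPolynomial.aeval_X]
  rfl

theorem xt_inr (j : Fin (M + 1)) : xt e j₀ b z (e.symm (Sum.inr j)).succ = z j := by
  unfold xt rv tot
  rw [Fin.cons_succ, Equiv.apply_symm_apply, Sum.elim_inr, MvPolynomial.aeval_X]
  rfl

theorem xt_gen (hj : z j₀ ≠ 0) (hg : IsGen b z) : coords ℂ (xt e j₀ b z) = ⊤ := by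
  rw [eq_top_iff, ← hg.gen, IntermediateField.adjoin_le_iff]
  rintro y (⟨i, rfl⟩ | ⟨i, j, hj', rfl⟩)
  · refine IntermediateField.subset_adjoin ℂ _ ⟨(e.symm (Sum.inl i)).succ, 0, ?_, ?_⟩
    · rw [xt_zero]
      exact hj
    · rw [xt_inl, xt_zero, mul_div_cancel_right₀ _ hj]
  · refine IntermediateField.subset_adjoin ℂ _ ⟨(e.symm (Sum.inr i)).succ,
      (e.symm (Sum.inr j)).succ, ?_, ?_⟩
    · rw [xt_inr]
      exact hj'
    · rw [xt_inr, xt_inr]

theorem xt_spec {L : Type} [Field L] [Algebra ℂ L] {b' : β → L} {z' : Fin (M + 1) → L} {c : β → ℂ}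
    (h : IsSpec b' z' c z) : IsPt (k := ℂ) (xt e j₀ b' z') (xt e j₀ (cst E c) z) := by
  refine ⟨fun h0 => h.1 ?_, fun G hG hG0 => ?_⟩
  · funext j
    have h1 := congrFun h0 (e.symm (Sum.inr j)).succ
    rw [xt_inr] at h1
    exact h1
  · rw [← rv_bind] at hG0 ⊢
    exact h.2 _ (tot_rel hG) hG0

end tot

/-- an element which is algebraic over a subring is algebraic over a larger one -/
theorem alg_mono {L A B : Type} [Field L] [CommRing A] [CommRing B] [Algebra A L] [Algebra B L]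
    (i : A →+* B) (hi : ∀ a, algebraMap B L (i a) = algebraMap A L a)
    (hinj : Function.Injective (algebraMap A L)) {y : L} (h : IsAlgebraic A y) :
    IsAlgebraic B y := by
  obtain ⟨p, hp, hpy⟩ := h
  have h1 : Function.Injective i := fun a a' h => hinj (by rw [← hi, ← hi, h])
  refine ⟨p.map i, (Polynomial.map_ne_zero_iff h1).2 hp, ?_⟩
  have h2 : (algebraMap B L).comp i = algebraMap A L := RingHom.ext hi
  rw [aeval_def, eval₂_map, h2]
  exact hpy

/-- relative transcendence degree at most one: one coordinate is enough -/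
theorem exists_one {β L : Type} [Field L] [Algebra ℂ L] (b : β → L) {m : ℕ} (u : Fin (m + 1) → L)
    (hu : IntermediateField.adjoin ℂ (Set.range b ∪ Set.range u) = ⊤) (w : ℕ) (hw : w ≤ 1)
    (htr : Algebra.trdeg (IntermediateField.adjoin ℂ (Set.range b)) L = w) :
    ∃ j, ∀ y : L, IsAlgebraic (IntermediateField.adjoin ℂ (Set.range b ∪ {u j})) y := by
  classical
  set F₀ := IntermediateField.adjoin ℂ (Set.range b) with hF₀
  have h1 : IntermediateField.adjoin F₀ (Set.range u) = ⊤ := by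
    apply IntermediateField.restrictScalars_injective ℂ
    rw [IntermediateField.adjoin_adjoin_left, hu]
    rfl
  have h2 : Algebra.IsAlgebraic (Algebra.adjoin F₀ (Set.range u)) L := by
    rw [← isAlgebraic_adjoin_iff_top, h1, Algebra.isAlgebraic_iff_isIntegral]
    exact Algebra.isIntegral_of_surjective topEquiv.surjective
  obtain ⟨t, hts, ht⟩ := exists_isTranscendenceBasis_subset (R := F₀) (Set.range u)
  have hcard : Cardinal.mk t = (w : Cardinal) := ht.cardinalMk_eq_trdeg.trans htr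
  have hsub : t.Subsingleton := by
    rw [← Cardinal.mk_le_one_iff_set_subsingleton, hcard]
    exact_mod_cast hw
  obtain ⟨j, hj⟩ : ∃ j, t ⊆ {u j} := by
    rcases t.eq_empty_or_nonempty with h | ⟨y, hy⟩
    · exact ⟨0, by rw [h]; exact Set.empty_subset _⟩
    · obtain ⟨j, rfl⟩ := hts hy
      exact ⟨j, fun x hx => hsub hx hy⟩
  refine ⟨j, fun y => ?_⟩
  have h3 := (ht.isAlgebraic_field).isAlgebraic y
  have hle : ∀ a ∈ IntermediateField.adjoin F₀ (Set.range (Subtype.val : t → L)),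
      a ∈ IntermediateField.adjoin ℂ (Set.range b ∪ {u j}) := by
    intro a ha
    have h4 : a ∈ (IntermediateField.adjoin F₀ (Set.range (Subtype.val : t → L))).restrictScalars ℂ :=
      ha
    rw [IntermediateField.adjoin_adjoin_left] at h4
    refine IntermediateField.adjoin.mono ℂ _ _ ?_ h4
    rw [Subtype.range_coe]
    exact Set.union_subset_union_right _ hj
  exact alg_mono
    { toFun := fun a => ⟨a.1, hle a.1 a.2⟩
      map_one' := rfl
      map_mul' := fun _ _ => rfl
      map_zero' := rfl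
      map_add' := fun _ _ => rfl } (fun a => rfl) (fun a a' h => Subtype.ext h) h3

/-- the algebraic closure of the field of rational functions -/
abbrev Lam : Type := AlgebraicClosure (RatFunc ℂ)

/-- the variable -/
noncomputable def tL : Lam := algebraMap (RatFunc ℂ) Lam RatFunc.X

/-- the elements algebraic over `ℂ(x)`, `x` transcendental, embed in the algebraic closure of `ℂ(t)` -/
theorem exists_lift {E : Type} [Field E] [Algebra ℂ E] (x : E) (hx : Transcendental ℂ x) :
    ∃ (S : Subalgebra ℂ E) (ψ : S →ₐ[ℂ] Lam), Function.Injective ψ ∧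
      (∀ y, IsAlgebraic (IntermediateField.adjoin ℂ {x}) y → y ∈ S) ∧
      ∀ h : x ∈ S, ψ ⟨x, h⟩ = tL := by
  classical
  let e := RatFunc.algEquivOfTranscendental x hx
  let ψ₀ : (IntermediateField.adjoin ℂ {x}) →ₐ[ℂ] Lam :=
    (IsScalarTower.toAlgHom ℂ (RatFunc ℂ) Lam).comp e.symm.toAlgHom
  let _ : Algebra (IntermediateField.adjoin ℂ {x}) Lam := ψ₀.toRingHom.toAlgebra
  have hmap : ∀ a, algebraMap (IntermediateField.adjoin ℂ {x}) Lam a = ψ₀ a := fun _ => rfl
  let S' := algebraicClosure (IntermediateField.adjoin ℂ {x}) E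
  let ψ : S' →ₐ[IntermediateField.adjoin ℂ {x}] Lam := IsAlgClosed.lift
  have hψ : ∀ a : IntermediateField.adjoin ℂ {x}, ∀ h : (a : E) ∈ S', ψ ⟨(a : E), h⟩ = ψ₀ a := by
    intro a h
    have h1 := ψ.commutes a
    rw [hmap] at h1
    rw [← h1]
    rfl
  have hψc : ∀ (r : ℂ) (h : algebraMap ℂ E r ∈ S'), ψ ⟨algebraMap ℂ E r, h⟩ = algebraMap ℂ Lam r := by
    intro r h
    have h1 := hψ (algebraMap ℂ _ r) h
    rw [ψ₀.commutes] at h1
    exact h1
  refine ⟨S'.toSubalgebra.restrictScalars ℂ,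
    { toFun := fun y => ψ ⟨y.1, y.2⟩
      map_one' := map_one ψ
      map_mul' := fun a b => map_mul ψ ⟨a.1, a.2⟩ ⟨b.1, b.2⟩
      map_zero' := map_zero ψ
      map_add' := fun a b => map_add ψ ⟨a.1, a.2⟩ ⟨b.1, b.2⟩
      commutes' := fun r => hψc r _ }, fun a b hab => ?_, fun y hy => ?_, fun h => ?_⟩
  · have h1 : (⟨a.1, a.2⟩ : S') = ⟨b.1, b.2⟩ := ψ.toRingHom.injective hab
    exact Subtype.ext (congrArg (fun s : S' => (s : E)) h1)
  · exact mem_algebraicClosure_iff.2 hy
  · have h1 := hψ ⟨x, IntermediateField.mem_adjoin_simple_self ℂ x⟩ h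
    refine h1.trans ?_
    change algebraMap (RatFunc ℂ) Lam (e.symm _) = _
    unfold tL
    congr 1
    rw [AlgEquiv.symm_apply_eq]
    apply Subtype.ext
    exact (RatFunc.algEquivOfTranscendental_X x hx).symm

/-- **FM-CNT** -/
theorem cnt : S_cnt := by
  classical
  intro β _ M L _ _ b z w hg hw htr
  have := Fintype.ofFinite β
  obtain ⟨j₀, hj₀'⟩ := Function.ne_iff.1 hg.ne
  have hj₀ : z j₀ ≠ 0 := hj₀'
  obtain ⟨u, hu⟩ : ∃ u : Fin (M + 1) → L, ∀ j, u j = z j / z j₀ := ⟨_, fun _ => rfl⟩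
  have hgen : IntermediateField.adjoin ℂ (Set.range b ∪ Set.range u) = ⊤ := by
    rw [eq_top_iff, ← hg.gen, IntermediateField.adjoin_le_iff]
    rintro y (⟨i, rfl⟩ | ⟨i, j, hj, rfl⟩)
    · exact IntermediateField.subset_adjoin ℂ _ (Or.inl ⟨i, rfl⟩)
    · have h : z i / z j = u i / u j := by
        rw [hu, hu, div_div_div_cancel_right₀ hj₀]
      rw [h]
      exact div_mem (IntermediateField.subset_adjoin ℂ _ (Or.inr ⟨i, rfl⟩))
        (IntermediateField.subset_adjoin ℂ _ (Or.inr ⟨j, rfl⟩))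
  obtain ⟨j₁, hj₁⟩ := exists_one b u hgen w hw htr
  obtain ⟨n, ⟨e⟩⟩ : ∃ n : ℕ, Nonempty (Fin n ≃ β ⊕ Fin (M + 1)) :=
    ⟨_, ⟨(Fintype.equivFin _).symm⟩⟩
  obtain ⟨m, ⟨e'⟩⟩ : ∃ m : ℕ, Nonempty (Fin m ≃ β ⊕ Unit) := ⟨_, ⟨(Fintype.equivFin _).symm⟩⟩
  obtain ⟨x, hx⟩ : ∃ x, x = xt e j₀ b z := ⟨_, rfl⟩
  have hx0 : x 0 ≠ 0 := by
    rw [hx, xt_zero]
    exact hj₀
  have hxgen : coords ℂ x = ⊤ := by
    rw [hx]
    exact xt_gen hj₀ hg
  obtain ⟨wv, hwv⟩ : ∃ wv : Fin m → L, ∀ t, wv t = Sum.elim b (fun _ => u j₁) (e' t) :=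
    ⟨_, fun _ => rfl⟩
  have hrange : Set.range wv = Set.range b ∪ {u j₁} := by
    have h1 : wv = Sum.elim b (fun _ => u j₁) ∘ e' := funext hwv
    rw [h1, e'.surjective.range_comp, Set.Sum.elim_range, Set.range_const]
  choose f hf1 hf2 using fun j : Fin (M + 1) => alg_poly wv (u j) (by
    rw [hrange]
    exact hj₁ (u j))
  choose μ hμ using hf1
  obtain ⟨R₁, T, hR₁, hR₁x, hCT, hxT, hT⟩ := spec hxgen (j0 := (0 : Fin (n + 1))) hx0
    (C := Set.range fun j => ((evc (f j) wv).coeff (μ j))⁻¹) (Set.finite_range _)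
  refine ⟨MvPolynomial.bind₁ (tot e j₀) R₁, ∏ j, (f j).natDegree, tot_rel hR₁, ?_, fun c => ?_⟩
  · rw [rv_bind, ← hx]
    exact hR₁x
  obtain ⟨a₀, ha₀⟩ : ∃ a₀ : Fin m → Lam, ∀ t, a₀ t = Sum.elim (fun i => algebraMap ℂ Lam (c i))
    (fun _ => tL) (e' t) := ⟨_, fun _ => rfl⟩
  obtain ⟨Y, hY⟩ : ∃ Y : Finset (Fin (M + 1) → Lam),
    Y = Fintype.piFinset fun j => (evc (f j) a₀).roots.toFinset := ⟨_, rfl⟩
  have hcardY : Y.card ≤ ∏ j, (f j).natDegree := by
    rw [hY, Fintype.card_piFinset]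
    refine Finset.prod_le_prod' fun j _ => ?_
    exact (Multiset.toFinset_card_le _).trans ((Polynomial.card_roots' _).trans natDegree_map_le)
  have hsub : lowOff b z (MvPolynomial.bind₁ (tot e j₀) R₁) c ⊆
      (fun y : Fin (M + 1) → Lam => van y) '' (Y : Set (Fin (M + 1) → Lam)) := by
    rintro V ⟨E, _, _, _, v, hv, hvR, ⟨i₂, k₂, hk₂, htr₂⟩, -, rfl⟩
    obtain ⟨u', hu'⟩ : ∃ u', u' = xt e j₀ (cst E c) v := ⟨_, rfl⟩
    have hup : IsPt (k := ℂ) x u' := by
      rw [hx, hu']
      exact xt_spec hv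
    rw [rv_bind, ← hu'] at hvR
    obtain ⟨hun, φ, hφ⟩ := hT E u' hup hvR
    have hv0 : v j₀ ≠ 0 := by
      rw [hu', xt_zero] at hun
      exact hun
    have hbT : ∀ i, b i ∈ T := by
      intro i
      have h := hxT (e.symm (Sum.inl i)).succ
      rwa [hx, xt_inl, xt_zero, mul_div_cancel_right₀ _ hj₀] at h
    have huT : ∀ j, u j ∈ T := by
      intro j
      have h := hxT (e.symm (Sum.inr j)).succ
      rwa [hx, xt_inr, xt_zero, ← hu] at h
    have hφb : ∀ i, φ ⟨b i, hbT i⟩ = algebraMap ℂ E (c i) := by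
      intro i
      have h := hφ (e.symm (Sum.inl i)).succ (hxT _)
      rw [hu', xt_inl, xt_zero, mul_div_cancel_right₀ _ hv0] at h
      have h1 : (⟨b i, hbT i⟩ : T) = ⟨x (e.symm (Sum.inl i)).succ / x 0, hxT _⟩ := by
        apply Subtype.ext
        change b i = x _ / x 0
        rw [hx, xt_inl, xt_zero, mul_div_cancel_right₀ _ hj₀]
      rw [h1, h]
      rfl
    have hφu : ∀ j, φ ⟨u j, huT j⟩ = v j / v j₀ := by
      intro j
      have h := hφ (e.symm (Sum.inr j)).succ (hxT _)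
      rw [hu', xt_inr, xt_zero] at h
      have h1 : (⟨u j, huT j⟩ : T) = ⟨x (e.symm (Sum.inr j)).succ / x 0, hxT _⟩ := by
        apply Subtype.ext
        change u j = x _ / x 0
        rw [hx, xt_inr, xt_zero, hu]
      rw [h1, h]
    have hwT : ∀ t, wv t ∈ T := by
      intro t
      rw [hwv]
      rcases e' t with i | _
      · exact hbT i
      · exact huT j₁
    obtain ⟨a, ha⟩ : ∃ a : Fin m → E, ∀ t, a t = Sum.elim (fun i => algebraMap ℂ E (c i))
      (fun _ => v j₁ / v j₀) (e' t) := ⟨_, fun _ => rfl⟩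
    have haφ : (fun i => φ ⟨wv i, hwT i⟩) = a := by
      funext t
      rw [ha]
      have h1 : ∀ (y : L) (hy : y ∈ T), y = wv t → φ ⟨wv t, hwT t⟩ = φ ⟨y, hy⟩ := by
        rintro y hy rfl
        rfl
      rcases het : e' t with i | r
      · rw [h1 (b i) (hbT i) (by rw [hwv, het, Sum.elim_inl]), hφb, Sum.elim_inl]
      · rw [h1 (u j₁) (huT j₁) (by rw [hwv, het, Sum.elim_inr]), hφu, Sum.elim_inr]
    have hP : ∀ j, evc (f j) a ≠ 0 ∧ (evc (f j) a).eval (v j / v j₀) = 0 := by
      intro j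
      have h := alg_spec' φ hwT (huT j) (hμ j) (hCT ⟨j, rfl⟩) (hf2 j)
      rw [haφ, hφu] at h
      exact h
    have hal : ∀ j, IsAlgebraic (IntermediateField.adjoin ℂ {v j₁ / v j₀}) (v j / v j₀) := by
      intro j
      obtain ⟨a'', ha''⟩ : ∃ a'' : Fin m → IntermediateField.adjoin ℂ {v j₁ / v j₀},
          ∀ t, (a'' t : E) = a t := by
        refine ⟨fun t => ⟨a t, ?_⟩, fun t => rfl⟩
        rw [ha]
        rcases e' t with i | _
        · exact (IntermediateField.adjoin ℂ {v j₁ / v j₀}).algebraMap_mem (c i)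
        · exact IntermediateField.mem_adjoin_simple_self ℂ _
      have h1 := evc_hom (IntermediateField.adjoin ℂ {v j₁ / v j₀}).val (f j) a''
      have h2 : (fun i => (IntermediateField.adjoin ℂ {v j₁ / v j₀}).val (a'' i)) = a :=
        funext ha''
      rw [h2] at h1
      refine ⟨evc (f j) a'', fun h0 => (hP j).1 ?_, ?_⟩
      · rw [← h1, h0, Polynomial.map_zero]
      · have h3 := (hP j).2
        rw [← h1, Polynomial.eval_map] at h3
        exact h3
    have hx1 : Transcendental ℂ (v j₁ / v j₀) := by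
      intro hA
      have h1 : Algebra.IsAlgebraic ℂ (IntermediateField.adjoin ℂ {v j₁ / v j₀}) :=
        IntermediateField.isAlgebraic_adjoin_simple hA.isIntegral
      have h2 : ∀ j, IsAlgebraic ℂ (v j / v j₀) := fun j => (hal j).restrictScalars ℂ
      apply htr₂
      have h3 : v i₂ / v k₂ = (v i₂ / v j₀) * (v k₂ / v j₀)⁻¹ := by
        field_simp
      rw [h3]
      exact (h2 i₂).mul (h2 k₂).inv
    obtain ⟨S, ψ, hψ, hS, ht⟩ := exists_lift (v j₁ / v j₀) hx1
    let v' : Fin (M + 1) → S := fun j => ⟨v j / v j₀, hS _ (hal j)⟩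
    refine ⟨fun j => ψ (v' j), ?_, ?_⟩
    · rw [hY, Finset.mem_coe, Fintype.mem_piFinset]
      intro j
      obtain ⟨a', ha'⟩ : ∃ a' : Fin m → S, ∀ t, a' t = Sum.elim (fun i => algebraMap ℂ S (c i))
        (fun _ => v' j₁) (e' t) := ⟨_, fun _ => rfl⟩
      have h1 := evc_hom S.val (f j) a'
      have h2 : (fun i => S.val (a' i)) = a := by
        funext t
        rw [ha', ha]
        rcases e' t with i | _
        · rfl
        · rfl
      rw [h2] at h1
      have h3 := evc_hom ψ (f j) a'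
      have h4 : (fun i => ψ (a' i)) = a₀ := by
        funext t
        rw [ha', ha₀]
        rcases e' t with i | _
        · exact ψ.commutes (c i)
        · exact ht _
      rw [h4] at h3
      have hne : evc (f j) a' ≠ 0 := fun h0 => (hP j).1 (by rw [← h1, h0, Polynomial.map_zero])
      have hroot : (evc (f j) a').eval (v' j) = 0 := by
        apply Subtype.ext
        have h5 := eval_map_apply S.val.toRingHom (p := evc (f j) a') (v' j)
        have h6 : S.val.toRingHom (v' j) = v j / v j₀ := rfl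
        rw [h1, h6, (hP j).2] at h5
        exact h5.symm
      rw [Multiset.mem_toFinset, Polynomial.mem_roots']
      refine ⟨?_, ?_⟩
      · rw [← h3]
        exact (Polynomial.map_ne_zero_iff hψ).2 hne
      · rw [Polynomial.IsRoot.def, ← h3]
        have h5 := eval_map_apply ψ.toRingHom (p := evc (f j) a') (v' j)
        rw [hroot, map_zero] at h5
        exact h5
    · have key : ∀ G : MvPolynomial (Fin (M + 1)) ℂ, IsForm G →
          (val (fun j => ψ (v' j)) G = 0 ↔ val v G = 0) := by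
        rintro G ⟨d, hd⟩
        have h1 : val (fun j => ψ (v' j)) G = ψ (MvPolynomial.aeval v' G) :=
          (MvPolynomial.comp_aeval_apply v' ψ G).symm
        have h2 : ((MvPolynomial.aeval v' G : S) : E) = val (fun j => v j / v j₀) G :=
          MvPolynomial.comp_aeval_apply v' S.val G
        have h3 : val v G = v j₀ ^ d * val (fun j => v j / v j₀) G := by
          rw [← Pool.Agent.W602.GT.val_smul hd (v j₀)]
          congr 1
          funext t
          field_simp
        rw [h1, h3, ← h2, mul_eq_zero, map_eq_zero_iff ψ hψ]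
        constructor
        · intro h
          right
          rw [h]
          rfl
        · rintro (h | h)
          · exact absurd h (pow_ne_zero _ hv0)
          · exact Subtype.ext h
      ext G
      constructor
      · rintro ⟨hG, h⟩
        exact ⟨hG, (key G hG).1 h⟩
      · rintro ⟨hG, h⟩
        exact ⟨hG, (key G hG).2 h⟩
  calc (lowOff b z (MvPolynomial.bind₁ (tot e j₀) R₁) c).encard
      ≤ ((fun y : Fin (M + 1) → Lam => van y) '' (Y : Set (Fin (M + 1) → Lam))).encard :=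
        Set.encard_le_encard hsub
    _ ≤ (Y : Set (Fin (M + 1) → Lam)).encard := Set.encard_image_le _ _
    _ = (Y.card : ℕ∞) := Set.encard_coe_eq_coe_finsetCard _
    _ ≤ ((∏ j, (f j).natDegree : ℕ) : ℕ∞) := by exact_mod_cast hcardY

end Pool.Agent.J6H11.FM
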