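import Pool.Agent.J6H11.FM.Cnt
import Pool.Agent.J6H55.FM.Stm
import Pool.Agent.J6H55.QF.Crv
import Pool.Agent.Q96.HE.Curve
import Pool.Agent.Q103.SF.Alg
import Pool.Agent.W603.PV.Ext
import Pool.Agent.W603.PV.Hgt

/-!
# Heights of the curves in the fibres of a family of curves (module FM-ONE of project FM)
-/

set_option autoImplicit false
set_option linter.overlappingInstances false

namespace Pool.Agent.J6H11.FM.One

open FF Polynomial IntermediateField
open Pool.Agent.W602.GT (IsForm val coords)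
open Pool.Agent.W603.LV (canDeg hgt)
open Pool.Agent.W603.PV (pht pht_le hgt_algebraic hgt_eq_finrank)
open Pool.Agent.Q103.RP (IsPt evc evc_coeff evc_hom evc_eval alg_poly alg_spec' spec)
open Pool.Agent.Q103.SF (van)
open Pool.Agent.J6H55.QF (Rel hgt_rel)
open Pool.Agent.Q96.HE (SameCurve exists_curve curve_map lift_point)
open Pool.Agent.Q271.RC (IsGeneric Nonconst)
open Pool.Agent.J6H55.FM
open Pool.Agent.J6H11.FM

section fib

variable {β : Type} {M : ℕ}

theorem bind_wh' {σ τ : Type} {w : τ → ℕ} {n : σ → ℕ} {g : σ → MvPolynomial τ ℂ}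
    (hg : ∀ i, MvPolynomial.IsWeightedHomogeneous w (g i) (n i)) {H : MvPolynomial σ ℂ} {m : ℕ}
    (hH : MvPolynomial.IsWeightedHomogeneous n H m) :
    MvPolynomial.IsWeightedHomogeneous w (MvPolynomial.bind₁ g H) m := by
  classical
  rw [H.as_sum, map_sum]
  refine Submodule.sum_mem (MvPolynomial.weightedHomogeneousSubmodule ℂ w m) fun d hd => ?_
  rw [MvPolynomial.mem_weightedHomogeneousSubmodule, MvPolynomial.bind₁_monomial]
  have h2 := hH (MvPolynomial.mem_support_iff.1 hd)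
  have h3 : MvPolynomial.IsWeightedHomogeneous w (∏ i ∈ d.support, g i ^ d i)
      (∑ i ∈ d.support, d i • n i) :=
    MvPolynomial.IsWeightedHomogeneous.prod _ _ _ fun i _ => (hg i).pow (d i)
  have h4 : (∑ i ∈ d.support, d i • n i) = m := by
    rw [← h2, Finsupp.weight_apply]
    rfl
  rw [h4] at h3
  have h5 := (MvPolynomial.isWeightedHomogeneous_C w (MvPolynomial.coeff d H)).mul h3
  rwa [zero_add] at h5

/-- the equation of the fibre over `c` -/
noncomputable def fib (c : β → ℂ) (F : MvPolynomial (β ⊕ Fin (M + 1)) ℂ) :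
    MvPolynomial (Fin (M + 1)) ℂ :=
  MvPolynomial.bind₁ (Sum.elim (fun i => MvPolynomial.C (c i)) MvPolynomial.X) F

theorem fib_form {c : β → ℂ} {F : MvPolynomial (β ⊕ Fin (M + 1)) ℂ} (hF : IsRel F) :
    IsForm (fib c F) := by
  obtain ⟨e, he⟩ := hF
  refine ⟨e, bind_wh' (n := Sum.elim (fun _ => 0) (fun _ => 1)) ?_ he⟩
  rintro (i | j)
  · exact MvPolynomial.isWeightedHomogeneous_C _ _
  · exact MvPolynomial.isWeightedHomogeneous_X ℂ _ j

theorem val_fib {c : β → ℂ} {F : MvPolynomial (β ⊕ Fin (M + 1)) ℂ} {E : Type} [Field E]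
    [Algebra ℂ E] (z : Fin (M + 1) → E) : val z (fib c F) = rv (cst E c) z F := by
  unfold Pool.Agent.W602.GT.val fib Pool.Agent.J6H55.FM.rv
  rw [MvPolynomial.aeval_bind₁]
  congr 2
  funext i
  rcases i with i | j
  · change MvPolynomial.aeval z (MvPolynomial.C (c i)) = _
    rw [MvPolynomial.aeval_C]
    rfl
  · change MvPolynomial.aeval z (MvPolynomial.X j) = _
    rw [MvPolynomial.aeval_X]
    rfl

end fib

/-- the point `(c, y)` -/
noncomputable def av {β : Type} {m : ℕ} (e' : Fin m ≃ β ⊕ Unit) {E : Type} [Field E] [Algebra ℂ E]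
    (c : β → ℂ) (y : E) : Fin m → E :=
  fun t => Sum.elim (fun i => algebraMap ℂ E (c i)) (fun _ => y) (e' t)

/-- **The relations.** -/
theorem relations {β : Type} [Finite β] {M : ℕ} {L : Type} [Field L] [Algebra ℂ L] {b : β → L}
    {z : Fin (M + 1) → L} (hg : IsGen b z) {w : ℕ} (hw : w ≤ 1)
    (htr : Algebra.trdeg (IntermediateField.adjoin ℂ (Set.range b)) L = w) :
    ∃ (R : MvPolynomial (β ⊕ Fin (M + 1)) ℂ) (m : ℕ) (e' : Fin m ≃ β ⊕ Unit)
      (j₀ j₁ : Fin (M + 1)) (f : Fin (M + 1) → Polynomial (MvPolynomial (Fin m) ℂ)),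
      IsRel R ∧ rv b z R ≠ 0 ∧
      ∀ (E : Type) [Field E] [Algebra ℂ E] (c : β → ℂ) (v : Fin (M + 1) → E), IsSpec b z c v →
        rv (cst E c) v R ≠ 0 → v j₀ ≠ 0 ∧
          ∀ j, Rel (f j) (av e' c (v j₁ / v j₀)) (v j / v j₀) := by
  classical
  have := Fintype.ofFinite β
  obtain ⟨j₀, hj₀'⟩ := Function.ne_iff.1 hg.ne
  have hj₀ : z j₀ ≠ 0 := hj₀'
  obtain ⟨u, hu⟩ : ∃ u : Fin (M + 1) → L, ∀ j, u j = z j / z j₀ := ⟨_, fun _ => rfl⟩
  have hgen : IntermediateField.adjoin ℂ (Set.range b ∪ Set.range u) = ⊤ := by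
    rw [eq_top_iff, ← hg.gen, IntermediateField.adjoin_le_iff]
    rintro y (⟨i, rfl⟩ | ⟨i, j, hj, rfl⟩)
    · exact IntermediateField.subset_adjoin ℂ _ (Or.inl ⟨i, rfl⟩)
    · have h : z i / z j = u i / u j := by
        rw [hu, hu, div_div_div_cancel_right₀ hj₀]
      rw [h]
      exact div_mem (IntermediateField.subset_adjoin ℂ _ (Or.inr ⟨i, rfl⟩))
        (IntermediateField.subset_adjoin ℂ _ (Or.inr ⟨j, rfl⟩))
  obtain ⟨j₁, hj₁⟩ := exists_one b u hgen w hw htr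
  obtain ⟨n, ⟨e⟩⟩ : ∃ n : ℕ, Nonempty (Fin n ≃ β ⊕ Fin (M + 1)) :=
    ⟨_, ⟨(Fintype.equivFin _).symm⟩⟩
  obtain ⟨m, ⟨e'⟩⟩ : ∃ m : ℕ, Nonempty (Fin m ≃ β ⊕ Unit) := ⟨_, ⟨(Fintype.equivFin _).symm⟩⟩
  obtain ⟨x, hx⟩ : ∃ x, x = xt e j₀ b z := ⟨_, rfl⟩
  have hx0 : x 0 ≠ 0 := by
    rw [hx, xt_zero]
    exact hj₀
  have hxgen : coords ℂ x = ⊤ := by
    rw [hx]
    exact xt_gen hj₀ hg
  obtain ⟨wv, hwv⟩ : ∃ wv : Fin m → L, ∀ t, wv t = Sum.elim b (fun _ => u j₁) (e' t) :=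
    ⟨_, fun _ => rfl⟩
  have hrange : Set.range wv = Set.range b ∪ {u j₁} := by
    have h1 : wv = Sum.elim b (fun _ => u j₁) ∘ e' := funext hwv
    rw [h1, e'.surjective.range_comp, Set.Sum.elim_range, Set.range_const]
  choose f hf1 hf2 using fun j : Fin (M + 1) => alg_poly wv (u j) (by
    rw [hrange]
    exact hj₁ (u j))
  choose μ hμ using hf1
  obtain ⟨R₁, T, hR₁, hR₁x, hCT, hxT, hT⟩ := spec hxgen (j0 := (0 : Fin (n + 1))) hx0
    (C := Set.range fun j => ((evc (f j) wv).coeff (μ j))⁻¹) (Set.finite_range _)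
  refine ⟨MvPolynomial.bind₁ (tot e j₀) R₁, m, e', j₀, j₁, f, tot_rel hR₁, ?_, ?_⟩
  · rw [rv_bind, ← hx]
    exact hR₁x
  intro E _ _ c v hv hvR
  obtain ⟨u', hu'⟩ : ∃ u', u' = xt e j₀ (cst E c) v := ⟨_, rfl⟩
  have hup : IsPt (k := ℂ) x u' := by
    rw [hx, hu']
    exact xt_spec hv
  rw [rv_bind, ← hu'] at hvR
  obtain ⟨hun, φ, hφ⟩ := hT E u' hup hvR
  have hv0 : v j₀ ≠ 0 := by
    rw [hu', xt_zero] at hun
    exact hun
  have hbT : ∀ i, b i ∈ T := by
    intro i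
    have h := hxT (e.symm (Sum.inl i)).succ
    rwa [hx, xt_inl, xt_zero, mul_div_cancel_right₀ _ hj₀] at h
  have huT : ∀ j, u j ∈ T := by
    intro j
    have h := hxT (e.symm (Sum.inr j)).succ
    rwa [hx, xt_inr, xt_zero, ← hu] at h
  have hφb : ∀ i, φ ⟨b i, hbT i⟩ = algebraMap ℂ E (c i) := by
    intro i
    have h := hφ (e.symm (Sum.inl i)).succ (hxT _)
    rw [hu', xt_inl, xt_zero, mul_div_cancel_right₀ _ hv0] at h
    have h1 : (⟨b i, hbT i⟩ : T) = ⟨x (e.symm (Sum.inl i)).succ / x 0, hxT _⟩ := by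
      apply Subtype.ext
      change b i = x _ / x 0
      rw [hx, xt_inl, xt_zero, mul_div_cancel_right₀ _ hj₀]
    rw [h1, h]
    rfl
  have hφu : ∀ j, φ ⟨u j, huT j⟩ = v j / v j₀ := by
    intro j
    have h := hφ (e.symm (Sum.inr j)).succ (hxT _)
    rw [hu', xt_inr, xt_zero] at h
    have h1 : (⟨u j, huT j⟩ : T) = ⟨x (e.symm (Sum.inr j)).succ / x 0, hxT _⟩ := by
      apply Subtype.ext
      change u j = x _ / x 0
      rw [hx, xt_inr, xt_zero, hu]
    rw [h1, h]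
  have hwT : ∀ t, wv t ∈ T := by
    intro t
    rw [hwv]
    rcases e' t with i | _
    · exact hbT i
    · exact huT j₁
  have haφ : (fun i => φ ⟨wv i, hwT i⟩) = av e' c (v j₁ / v j₀) := by
    funext t
    unfold av
    have h1 : ∀ (y : L) (hy : y ∈ T), y = wv t → φ ⟨wv t, hwT t⟩ = φ ⟨y, hy⟩ := by
      rintro y hy rfl
      rfl
    rcases het : e' t with i | r
    · rw [h1 (b i) (hbT i) (by rw [hwv, het, Sum.elim_inl]), hφb, Sum.elim_inl]
    · rw [h1 (u j₁) (huT j₁) (by rw [hwv, het, Sum.elim_inr]), hφu, Sum.elim_inr]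
  refine ⟨hv0, fun j => ?_⟩
  have h := alg_spec' φ hwT (huT j) (hμ j) (hCT ⟨j, rfl⟩) (hf2 j)
  rw [haφ, hφu] at h
  exact h

section

variable {β : Type} {M m : ℕ} {e' : Fin m ≃ β ⊕ Unit} {E : Type} [Field E] [Algebra ℂ E]

/-- the relation as a polynomial over `ℂ(x)` -/
theorem rel_adj (x : E) (c : β → ℂ) (g : Polynomial (MvPolynomial (Fin m) ℂ)) {y : E}
    (h : Rel g (av e' c x) y) : ∃ P : Polynomial (IntermediateField.adjoin ℂ {x}),
      P ≠ 0 ∧ P.natDegree ≤ g.natDegree ∧ aeval y P = 0 := by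
  obtain ⟨a'', ha''⟩ : ∃ a'' : Fin m → IntermediateField.adjoin ℂ {x},
      ∀ t, (a'' t : E) = av e' c x t := by
    refine ⟨fun t => ⟨av e' c x t, ?_⟩, fun t => rfl⟩
    unfold av
    rcases e' t with i | _
    · exact (IntermediateField.adjoin ℂ {x}).algebraMap_mem (c i)
    · exact IntermediateField.mem_adjoin_simple_self ℂ _
  have h1 := evc_hom (IntermediateField.adjoin ℂ {x}).val g a''
  have h2 : (fun i => (IntermediateField.adjoin ℂ {x}).val (a'' i)) = av e' c x := funext ha''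
  rw [h2] at h1
  refine ⟨evc g a'', fun h0 => h.1 ?_, ?_, ?_⟩
  · rw [← h1, h0, Polynomial.map_zero]
  · unfold Pool.Agent.Q103.RP.evc
    exact natDegree_map_le
  · have h3 := h.2
    rw [← h1, Polynomial.eval_map] at h3
    exact h3

theorem trans_of {c : β → ℂ} {v : Fin (M + 1) → E} {j₀ j₁ : Fin (M + 1)} (hv0 : v j₀ ≠ 0)
    {f : Fin (M + 1) → Polynomial (MvPolynomial (Fin m) ℂ)}
    (hR : ∀ j, Rel (f j) (av e' c (v j₁ / v j₀)) (v j / v j₀)) (hnc : Nonconst v) :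
    Transcendental ℂ (v j₁ / v j₀) := by
  obtain ⟨i₂, k₂, hk₂, htr₂⟩ := hnc
  have hal : ∀ j, IsAlgebraic (IntermediateField.adjoin ℂ {v j₁ / v j₀}) (v j / v j₀) := by
    intro j
    obtain ⟨P, hP, -, hP'⟩ := rel_adj _ c (f j) (hR j)
    exact ⟨P, hP, hP'⟩
  intro hA
  have h1 : Algebra.IsAlgebraic ℂ (IntermediateField.adjoin ℂ {v j₁ / v j₀}) :=
    IntermediateField.isAlgebraic_adjoin_simple hA.isIntegral
  have h2 : ∀ j, IsAlgebraic ℂ (v j / v j₀) := fun j => (hal j).restrictScalars ℂ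
  apply htr₂
  have h3 : v i₂ / v k₂ = (v i₂ / v j₀) * (v k₂ / v j₀)⁻¹ := by
    field_simp
  rw [h3]
  exact (h2 i₂).mul (h2 k₂).inv

end

/-- the degree of a finite extension is at most the product of the degrees of equations of
generators -/
theorem finrank_le {F E : Type} [Field F] [Field E] [Algebra F E] [CharZero F]
    [FiniteDimensional F E] {n : ℕ} (v : Fin n → E)
    (hgen : IntermediateField.adjoin F (Set.range v) = ⊤) (P : Fin n → F[X]) (hP : ∀ j, P j ≠ 0)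
    (hr : ∀ j, aeval (v j) (P j) = 0) : Module.finrank F E ≤ ∏ j, (P j).natDegree := by
  classical
  have h1 : Fintype.card (E →ₐ[F] AlgebraicClosure F) = Module.finrank F E :=
    AlgHom.card F E (AlgebraicClosure F)
  rw [← h1]
  obtain ⟨Y, hY⟩ : ∃ Y : Finset (Fin n → AlgebraicClosure F), Y = Fintype.piFinset fun j =>
    ((P j).map (algebraMap F (AlgebraicClosure F))).roots.toFinset := ⟨_, rfl⟩
  have h2 : Fintype.card (E →ₐ[F] AlgebraicClosure F) ≤ Y.card := by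
    rw [← Finset.card_univ]
    refine Finset.card_le_card_of_injOn (fun ψ j => ψ (v j)) ?_ ?_
    · intro ψ _
      rw [Finset.mem_coe, hY, Fintype.mem_piFinset]
      intro j
      rw [Multiset.mem_toFinset, Polynomial.mem_roots']
      refine ⟨(Polynomial.map_ne_zero_iff (algebraMap F (AlgebraicClosure F)).injective).2 (hP j),
        ?_⟩
      rw [Polynomial.IsRoot.def, Polynomial.eval_map_algebraMap, Polynomial.aeval_algHom_apply,
        hr j, map_zero]
    · intro ψ _ ψ' _ h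
      have h3 : ∀ x ∈ IntermediateField.adjoin F (Set.range v), ψ x = ψ' x := by
        intro x hx
        refine IntermediateField.adjoin_induction F (p := fun x _ => ψ x = ψ' x) ?_ ?_ ?_ ?_ ?_ hx
        · rintro _ ⟨j, rfl⟩
          exact congrFun h j
        · intro y
          rw [ψ.commutes, ψ'.commutes]
        · intro y y' _ _ h4 h5
          rw [map_add, map_add, h4, h5]
        · intro y _ h4
          rw [map_inv₀, map_inv₀, h4]
        · intro y y' _ _ h4 h5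
          rw [map_mul, map_mul, h4, h5]
      ext x
      exact h3 x (by rw [hgen]; exact IntermediateField.mem_top)
  refine h2.trans ?_
  rw [hY, Fintype.card_piFinset]
  refine Finset.prod_le_prod' fun j _ => ?_
  exact (Multiset.toFinset_card_le _).trans ((Polynomial.card_roots' _).trans natDegree_map_le)

/-- the bound for the height -/
noncomputable def bnd {M m : ℕ} (f : Fin (M + 1) → Polynomial (MvPolynomial (Fin m) ℂ)) : ℕ :=
  (∑ j, ∑ i ∈ Finset.range ((f j).natDegree + 1), ((f j).coeff i).totalDegree) *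
    ∏ j, (f j).natDegree

theorem pht_bound {β : Type} [Fintype β] {M m : ℕ} {e' : Fin m ≃ β ⊕ Unit} {E : Type} [Field E]
    [Algebra ℂ E] [IsFF ℂ E] {c : β → ℂ} {v : Fin (M + 1) → E} {j₀ j₁ : Fin (M + 1)}
    (hgen : IsGeneric v) (hv0 : v j₀ ≠ 0)
    {f : Fin (M + 1) → Polynomial (MvPolynomial (Fin m) ℂ)}
    (hR : ∀ j, Rel (f j) (av e' c (v j₁ / v j₀)) (v j / v j₀))
    (hx1 : Transcendental ℂ (v j₁ / v j₀)) : pht ℂ v ≤ (bnd f : ℤ) := by
  classical
  obtain ⟨x, hx⟩ : ∃ x, x = v j₁ / v j₀ := ⟨_, rfl⟩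
  rw [← hx] at hR hx1
  have hfd : FiniteDimensional (IntermediateField.adjoin ℂ {x}) E := IsFF.finite hx1
  have hadj : IntermediateField.adjoin (IntermediateField.adjoin ℂ {x})
      (Set.range fun j => v j / v j₀) = ⊤ := by
    rw [eq_top_iff]
    intro y _
    have h1 : y ∈ IntermediateField.adjoin ℂ {g : E | ∃ i j, v j ≠ 0 ∧ g = v i / v j} := by
      rw [hgen.2]
      exact IntermediateField.mem_top
    have h2 : IntermediateField.adjoin ℂ {g : E | ∃ i j, v j ≠ 0 ∧ g = v i / v j} ≤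
        (IntermediateField.adjoin (IntermediateField.adjoin ℂ {x})
          (Set.range fun j => v j / v j₀)).restrictScalars ℂ := by
      rw [IntermediateField.adjoin_le_iff]
      rintro _ ⟨i, j, hj, rfl⟩
      have h3 : v i / v j = (v i / v j₀) / (v j / v j₀) := by
        rw [div_div_div_cancel_right₀ hv0]
      rw [h3]
      exact div_mem (IntermediateField.subset_adjoin (IntermediateField.adjoin ℂ {x}) _ ⟨i, rfl⟩)
        (IntermediateField.subset_adjoin (IntermediateField.adjoin ℂ {x}) _ ⟨j, rfl⟩)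
    exact h2 h1
  choose P hP0 hPd hPr using fun j => rel_adj x c (f j) (hR j)
  have h1 : Module.finrank (IntermediateField.adjoin ℂ {x}) E ≤ ∏ j, (f j).natDegree :=
    (finrank_le _ hadj P hP0 hPr).trans (Finset.prod_le_prod' fun j _ => hPd j)
  have h3 : hgt ℂ x = (Module.finrank (IntermediateField.adjoin ℂ {x}) E : ℤ) :=
    hgt_eq_finrank hx1
  have hsum : ∑ s, hgt ℂ (av e' c x s) = hgt ℂ x := by
    have h4 : ∑ s, hgt ℂ (av e' c x s) = ∑ t : β ⊕ Unit, hgt ℂ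
        (Sum.elim (fun i => algebraMap ℂ E (c i)) (fun _ => x) t) :=
      e'.sum_comp (fun t => hgt ℂ (Sum.elim (fun i => algebraMap ℂ E (c i)) (fun _ => x) t))
    rw [h4, Fintype.sum_sum_type]
    have h5 : ∑ i : β, hgt ℂ (Sum.elim (fun i => algebraMap ℂ E (c i)) (fun _ : Unit => x)
        (Sum.inl i)) = 0 := by
      refine Finset.sum_eq_zero fun i _ => ?_
      rw [Sum.elim_inl]
      exact hgt_algebraic (isAlgebraic_algebraMap _)
    rw [h5, zero_add]
    simp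
  have h6 : ∀ j, hgt ℂ (v j / v j₀) ≤ ((∑ i ∈ Finset.range ((f j).natDegree + 1),
      ((f j).coeff i).totalDegree : ℕ) : ℤ) * ((∏ j, (f j).natDegree : ℕ) : ℤ) := by
    intro j
    have h7 := hgt_rel (κ := ℂ) (f j) (hR j)
    rw [hsum, h3] at h7
    refine h7.trans (mul_le_mul_of_nonneg_left ?_ (Int.natCast_nonneg _))
    exact_mod_cast h1
  refine (pht_le (k := ℂ) v hv0).trans ((Finset.sum_le_sum fun j _ => h6 j).trans (le_of_eq ?_))
  unfold bnd
  rw [← Finset.sum_mul]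
  push_cast
  ring

/-- **FM-ONE** -/
theorem one : S_one := by
  classical
  intro β _ M L _ _ b z w hg hw htr
  have := Fintype.ofFinite β
  obtain ⟨R, m, e', j₀, j₁, f, hR, hRz, H⟩ := relations hg hw htr
  refine ⟨R, bnd f, hR, hRz, ?_⟩
  intro E _ _ _ c v hv hvR hnc
  obtain ⟨M0, i1, i2, i3, w0, hw0, hs0⟩ := exists_curve hnc
  have hiff : ∀ G, IsRel G → (rv (cst M0 c) w0 G = 0 ↔ rv (cst E c) v G = 0) := by
    intro G hG
    rw [← val_fib, ← val_fib]
    obtain ⟨D, hD⟩ := fib_form (c := c) hG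
    exact hs0 _ D hD
  have hspec : IsSpec b z c w0 := by
    refine ⟨?_, fun G hG h0 => (hiff G hG).2 (hv.2 G hG h0)⟩
    obtain ⟨j, hj⟩ := hw0.1
    exact fun h => hj (congrFun h j)
  have hR0 : rv (cst M0 c) w0 R ≠ 0 := fun h => hvR ((hiff R hR).1 h)
  obtain ⟨hw00, hrel⟩ := H M0 c w0 hspec hR0
  have hv0 : ∃ j, v j ≠ 0 := by
    obtain ⟨i, j, hj, -⟩ := hnc
    exact ⟨j, hj⟩
  have hnc0 : Nonconst w0 := by
    obtain ⟨σ, l, hl, hvl⟩ := lift_point hw0 hv0 hs0
    obtain ⟨i, j, hj, hij⟩ := hnc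
    refine ⟨i, j, fun h => hj (by rw [hvl, h, map_zero, mul_zero]), fun h => hij ?_⟩
    have h1 : v i / v j = σ (w0 i / w0 j) := by
      rw [hvl i, hvl j, mul_div_mul_left _ _ hl, map_div₀]
    rw [h1]
    exact IsAlgebraic.algHom σ h
  have hx1 := trans_of hw00 hrel hnc0
  have hb := pht_bound hw0 hw00 hrel hx1
  obtain ⟨r, hr, hr1, hr2⟩ := curve_map hw0 hv0 hs0
    ({1} : Set (MvPolynomial (Fin (M + 1)) ℂ)) (by
      intro F hF
      rw [Set.mem_singleton_iff] at hF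
      rw [hF]
      exact ⟨0, MvPolynomial.isHomogeneous_one _ _⟩) Pool.Agent.Q103.SF.not_lies
  rw [Pool.Agent.Q103.SF.eul_one hw0.1, Pool.Agent.Q103.SF.eul_one hv0] at hr2
  rcases le_or_gt (canDeg ℂ M0) 0 with hc | hc
  · right
    refine ⟨M0, i1, i2, i3, w0, hspec.1, hw0.2, hc, hb, ?_⟩
    ext G
    constructor
    · rintro ⟨⟨D, hD⟩, h⟩
      exact ⟨⟨D, hD⟩, (hs0 G D hD).2 h⟩
    · rintro ⟨⟨D, hD⟩, h⟩
      exact ⟨⟨D, hD⟩, (hs0 G D hD).1 h⟩
  · left
    have hr' : (0 : ℤ) < r := by exact_mod_cast hr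
    have h3 : (r : ℤ) ≤ canDeg ℂ E := by nlinarith
    rw [hr1]
    calc (r : ℤ) * pht ℂ w0 ≤ r * (bnd f : ℤ) := mul_le_mul_of_nonneg_left hb hr'.le
      _ = (bnd f : ℤ) * r := mul_comm _ _
      _ ≤ (bnd f : ℤ) * canDeg ℂ E := mul_le_mul_of_nonneg_left h3 (Int.natCast_nonneg _)

end Pool.Agent.J6H11.FM.One
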